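import Pool.Agent.Helper16_XQ.StmtG
import Pool.Agent.Helper69_AEU.Tools
import Pool.Agent.Helper69_AEU.Lam
import Pool.Agent.Helper72_AEU.ACT

set_option autoImplicit false

namespace Pool.Agent.XQ

open MeasureTheory Complex Filter Topology Pool.Agent.H62T
open Pool.Agent.H16F (Sublin)
open Pool.Agent.AEU
open Pool.Agent.AEU.H69 (mem_touch mv_inv mv_inv' mb_inv' mv_inj mb_mv touch_image msy sub_copy)

namespace GCX63

/-- a short body on the lines of `S` stays strictly inside the erased sides -/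
theorem er_lt {X : Finset HP} {L : ℝ} {T : Finset (Finset HP)} {c : Finset HP → HP → ℝ}
    {K : Finset HP → ℂ → ℝ} (ht : ∀ F ∈ T, TornC X F (K F) L (c F)) {S : Finset HP} {h : ℂ → ℝ}
    (hh : Sublin h) (hS : ∀ s ∈ S, h s.1 = s.2) (hl : lam h < L) {t : HP} (hte : t ∈ er X T c S) :
    h t.1 < t.2 := by
  classical
  unfold er at hte
  rw [Finset.mem_filter] at hte
  obtain ⟨-, h1, h2, h3⟩ := hte
  by_contra hcon
  push Not at hcon
  have hT := ht _ h2
  have := hT.uniq h hh (fun s hs => by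
    rcases Finset.mem_insert.1 hs with rfl | hs
    · exact mul_nonneg h3.le (sub_nonneg.2 hcon)
    · rw [hS s hs, sub_self, mul_zero]) hl.le
  rw [this, hT.len] at hl
  exact lt_irrefl _ hl

/-- a short body which is matched between the relaxed polygons is matched -/
theorem short_mat (hact : ActStatement) {X Y : Finset HP} {L : ℝ} {T T' : Finset (Finset HP)}
    {c c' : Finset HP → HP → ℝ} {K K' : Finset HP → ℂ → ℝ}
    (ht : ∀ F ∈ T, TornC X F (K F) L (c F)) (ht' : ∀ F ∈ T', TornC Y F (K' F) L (c' F))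
    {S : Finset HP} {g : Iso2} {h : ℂ → ℝ} (hh : Sublin h) (hf : Fits X h) (hS : S ⊆ touch X h)
    (hl : lam h < L) (hm : Mat (rlx X T c S) (rlx Y T' c' (S.image (mv g))) g h) : Mat X Y g h := by
  classical
  have hS1 : ∀ s ∈ S, h s.1 = s.2 := fun s hs => (mem_touch.1 (hS hs)).2
  have hS2 : ∀ s ∈ S.image (mv g), mb g h s.1 = s.2 := by
    intro s hs
    obtain ⟨t, ht1, rfl⟩ := Finset.mem_image.1 hs
    have := mb_mv hact g h t
    rw [hS1 t ht1] at this
    linarith
  have hk : Sublin (mb g h) := H69.sub_mb g hh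
  have hlk : lam (mb g h) < L := by rw [H69.lam_mb g hh]; exact hl
  have e1 : ∀ t ∈ X, t ∉ rlx X T c S → h t.1 < t.2 := by
    intro t htX htr
    have : t ∈ er X T c S := by
      by_contra hcon
      exact htr (Finset.mem_sdiff.2 ⟨htX, hcon⟩)
    exact er_lt ht hh hS1 hl this
  have e2 : ∀ t ∈ Y, t ∉ rlx Y T' c' (S.image (mv g)) → mb g h t.1 < t.2 := by
    intro t htX htr
    have : t ∈ er Y T' c' (S.image (mv g)) := by
      by_contra hcon
      exact htr (Finset.mem_sdiff.2 ⟨htX, hcon⟩)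
    exact er_lt ht' hk hS2 hlk this
  refine ⟨hf, ?_, ?_, ?_⟩
  · intro t htY
    by_cases h1 : t ∈ rlx Y T' c' (S.image (mv g))
    · exact hm.fits' t h1
    · exact (e2 t htY h1).le
  · intro s hs
    obtain ⟨a1, a2⟩ := mem_touch.1 hs
    have h1 : s ∈ rlx X T c S := by
      by_contra hcon
      exact absurd a2 (e1 s a1 hcon).ne
    exact (Finset.mem_sdiff.1 (hm.mem s (mem_touch.2 ⟨h1, a2⟩))).1
  · intro s hs
    obtain ⟨a1, a2⟩ := mem_touch.1 hs
    have h1 : s ∈ rlx Y T' c' (S.image (mv g)) := by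
      by_contra hcon
      exact absurd a2 (e2 s a1 hcon).ne
    exact (Finset.mem_sdiff.1 (hm.mem' s (mem_touch.2 ⟨h1, a2⟩))).1

/-- transport of ghosts -/
theorem ghost_move (hact : ActStatement) (hgh : GhxStatement) {X Y : Finset HP} {L : ℝ} (hX : Pg X)
    (hY : Pg Y) {S : Finset HP} {g : Iso2} (hTY : S.image (mv g) ⊆ Y)
    (hXY : ∀ h, Sublin h → Fits X h → S ⊆ touch X h → lam h < L → Mat X Y g h)
    (hYX : ∀ k, Sublin k → Fits Y k → S.image (mv g) ⊆ touch Y k → lam k < L → Mat Y X g⁻¹ k)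
    (hG : Ghost X S) (hl : ell S < L) : Ghost Y (S.image (mv g)) ∧ ell (S.image (mv g)) = ell S := by
  classical
  obtain ⟨-, -, -, h0, a1, a2, a3, a4, a5⟩ := hgh X hX S hG
  obtain ⟨b1, b2, hb, b3, b4, b5, b6⟩ := hG
  have hS0 : S ⊆ touch X h0 := a3.ge
  have hl0 : lam h0 < L := by rw [a4]; exact hl
  have hm0 := hXY h0 a1 a2 hS0 hl0
  have hinv : ∀ k, Sublin k → Fits Y k → S.image (mv g) ⊆ touch Y k → lam k < L →
      S ⊆ touch X (mb g⁻¹ k) := by
    intro k k1 k2 k3 k4 s hs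
    have hm := hYX k k1 k2 k3 k4
    rw [touch_image hact hm]
    refine Finset.mem_image.2 ⟨mv g s, k3 (Finset.mem_image_of_mem _ hs), mv_inv' hact g s⟩
  have hT0 : S.image (mv g) ⊆ touch Y (mb g h0) := by
    rw [touch_image hact hm0]
    exact Finset.image_subset_image hS0
  have hk0 : lam (mb g h0) = ell S := by rw [H69.lam_mb g a1, a4]
  have hghost : Ghost Y (S.image (mv g)) := by
    refine ⟨hTY, ?_, mb g h0, H69.sub_mb g a1, hm0.fits', hT0, ?_⟩
    · rw [Finset.card_image_of_injective _ (mv_inj hact g), b2]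
    · intro k' c1 c2
      by_contra hcon
      push Not at hcon
      have hlk : lam k' < L := by
        rw [hk0] at hcon
        exact lt_of_le_of_lt hcon hl
      have hm := hYX k' c1.sub c1.fits c2 hlk
      have hsp := (msy hact Y X g⁻¹ k' hm).2.2 c1
      have hS' := hinv k' c1.sub c1.fits c2 hlk
      have d1 := b6 _ hsp hS'
      rw [H69.lam_mb g⁻¹ c1.sub] at d1
      have d2 := a5 hb b3 b4 b5
      rw [hk0] at hcon
      linarith
  refine ⟨hghost, ?_⟩
  obtain ⟨-, -, -, k1, c1, c2, c3, c4, c5⟩ := hgh Y hY _ hghost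
  have e1 := c5 (mb g h0) (H69.sub_mb g a1) hm0.fits' hT0
  rw [hk0] at e1
  have hlk : lam k1 < L := by rw [c4]; exact lt_of_le_of_lt e1 hl
  have hm := hYX k1 c1 c2 c3.ge hlk
  have e2 := a5 (mb g⁻¹ k1) (H69.sub_mb g⁻¹ c1) hm.fits' (hinv k1 c1 c2 c3.ge hlk)
  rw [H69.lam_mb g⁻¹ c1, c4] at e2
  exact le_antisymm e1 e2

end GCX63

open GCX63

/-- GCX -/
theorem gcx (_hvxx : VxxStatement) (hevr : EvrStatement) (hgh : GhxStatement) (_huql : UqlStatement)
    (hlmx : LmxStatement) (hrlx : RlxStatement) (hmbj : MbjStatement) (htbm : TbmStatement)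
    (hnkx : NkxStatement) : GcxStatement := by
  classical
  have hact : ActStatement := H72.act
  intro P Q L TP TQ cP cQ KP KQ hctx NP NQ hNP hNQ l hl D
  have hP : Pg P := hctx.gx.gen.pg
  have hQ : Pg Q := hctx.pq
  have henv : Env P Q L := hevr P Q L hP hctx.gx.gen.g1 hQ hctx.hyp
  have hlm := hlmx P Q L hctx.hyp hctx.gx hQ
  have halfP : Half P Q L TP cP KP :=
    ⟨henv, hctx.L0, hctx.c4, fun F hF => ⟨(hctx.tP F hF).1, (hctx.tP F hF).2.1, (hctx.tP F hF).2.2.1⟩,
      hctx.tP', hlm.1⟩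
  have halfQ : Half Q P L TQ cQ KQ :=
    ⟨henv.symm, hctx.L0, hctx.c4', fun F hF => ⟨(hctx.tQ F hF).1, (hctx.tQ F hF).2.1,
      (hctx.tQ F hF).2.2.1⟩, hctx.tQ', hlm.2⟩
  obtain ⟨γ, ma, mb', mc, -, me⟩ := hmbj P Q L TP TQ cP cQ KP KQ hctx
  have tornP : ∀ F ∈ TP, TornC P F (KP F) L (cP F) := fun F hF => (hctx.tP F hF).2.1
  have tornQ : ∀ F ∈ TQ, TornC Q F (KQ F) L (cQ F) := fun F hF => (hctx.tQ F hF).2.1
  -- the unmatched part
  have part : ∀ (X Y : Finset HP) (T : Finset (Finset HP)) (c : Finset HP → HP → ℝ)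
      (K : Finset HP → ℂ → ℝ) (N : Finset (Finset HP)), Half X Y L T c K →
      (∀ S, S ∈ N ↔ S ∈ X.powersetCard 3 ∧ Np S ∧ Le X S L ∧ ¬ MTr X Y L S ∧ ¬ TB T c S) →
      ∀ S, (S ∈ N ∧ Acute S ∧ ell S = l) ↔
        (S ∈ X.powersetCard 3 ∧ (Ghost X S ∧ ell S = l)) ∧ ¬ MTr X Y L S := by
    intro X Y T c K N hhalf hN S
    constructor
    · rintro ⟨h1, h2, h3⟩
      obtain ⟨a1, a2, a3, a4, a5⟩ := (hN S).1 h1
      obtain ⟨a6, a7⟩ := Finset.mem_powersetCard.1 a1
      have hk := (hnkx X Y L T c K hhalf S a6 a7 a2 a3 a4 a5).2.2.1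
      have hG := hk.2 ⟨h2, by rw [h3]; exact hl⟩
      exact ⟨⟨a1, hG.1, h3⟩, a4⟩
    · rintro ⟨⟨a1, a2, a3⟩, a4⟩
      obtain ⟨a6, a7⟩ := Finset.mem_powersetCard.1 a1
      obtain ⟨b1, b2, -, h0, c1, c2, c3, c4, -⟩ := hgh X hhalf.env.pg S a2
      have hlt : Lt X S L := ⟨h0, c1, c2, c3.ge, by rw [c4, a3]; exact hl⟩
      have hle : Le X S L := ⟨h0, c1, c2, c3.ge, by rw [c4, a3]; exact hl.le⟩
      have htb : ¬ TB T c S := by
        rintro ⟨F, hF, t, ht, rfl, hneg⟩
        obtain ⟨d1, d2, d3⟩ := hhalf.t F hF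
        exact (htbm X Y F (K F) L (c F) hhalf.env.pg d1 d2 d3 t ht hneg).1 hlt
      exact ⟨(hN S).2 ⟨a1, b2, hle, a4, htb⟩, b1, a3⟩
  have cardX : ∀ (X Y : Finset HP) (T : Finset (Finset HP)) (c : Finset HP → HP → ℝ)
      (K : Finset HP → ℂ → ℝ) (N : Finset (Finset HP)), Half X Y L T c K →
      (∀ S, S ∈ N ↔ S ∈ X.powersetCard 3 ∧ Np S ∧ Le X S L ∧ ¬ MTr X Y L S ∧ ¬ TB T c S) →
      gc X l = (((X.powersetCard 3).filter fun S => Ghost X S ∧ ell S = l).filter
        fun S => MTr X Y L S).card + (N.filter fun S => Acute S ∧ ell S = l).card := by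
    intro X Y T c K N hhalf hN
    unfold gc
    have h1 : (N.filter fun S => Acute S ∧ ell S = l)
        = (((X.powersetCard 3).filter fun S => Ghost X S ∧ ell S = l).filter
          fun S => ¬ MTr X Y L S) := by
      ext S
      rw [Finset.mem_filter, Finset.mem_filter, Finset.mem_filter]
      exact part X Y T c K N hhalf hN S
    rw [h1]
    have h2 := Finset.card_filter_add_card_filter_not (s := (X.powersetCard 3).filter
      fun S => Ghost X S ∧ ell S = l) (fun S => MTr X Y L S)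
    rw [h2]
  have eP := cardX P Q TP cP KP NP halfP hNP
  have eQ := cardX Q P TQ cQ KQ NQ halfQ hNQ
  have egc : gc P l = gc Q l := hctx.hyp.gh l hl
  -- the matched part
  have hshort : ∀ S, MTr P Q L S →
      (∀ h, Sublin h → Fits P h → S ⊆ touch P h → lam h < L → Mat P Q (γ S) h) ∧
      (∀ k, Sublin k → Fits Q k → S.image (mv (γ S)) ⊆ touch Q k → lam k < L →
        Mat Q P (γ S)⁻¹ k) := by
    intro S hS
    obtain ⟨g, r1, r2, δ, hδ, r3, r4⟩ := hrlx P Q L TP TQ cP cQ KP KQ hctx S hS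
    have hg : γ S = g := by
      obtain ⟨-, -, h, g0, a1, a2, a3, a4⟩ := id hS
      rw [← me S hS g0 h a1 a2 a3 a4]
      exact r2 g0 ⟨h, a1, a2, a3, a4⟩
    rw [hg]
    constructor
    · intro h a1 a2 a3 a4
      have hfr : Fits (rlx P TP cP S) h := fun s hs => a2 s (Finset.mem_sdiff.1 hs).1
      exact short_mat hact tornP tornQ a1 a2 a3 a4 (r3 h a1 hfr a3 (by linarith))
    · intro k a1 a2 a3 a4
      have hfr : Fits (rlx Q TQ cQ (S.image (mv g))) k := fun s hs => a2 s (Finset.mem_sdiff.1 hs).1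
      have hm := r4 k a1 hfr a3 (by linarith)
      have himg : (S.image (mv g)).image (mv g⁻¹) = S := by
        rw [Finset.image_image]
        have : (mv g⁻¹ ∘ mv g) = id := by
          funext s
          exact mv_inv' hact g s
        rw [this, Finset.image_id]
      refine short_mat hact tornQ tornP (S := S.image (mv g)) (g := g⁻¹) a1 a2 a3 a4 ?_
      rw [himg]
      exact hm
  have hmove : ∀ S, MTr P Q L S → ((Ghost P S ∧ ell S = l) ↔
      (Ghost Q (S.image (mv (γ S))) ∧ ell (S.image (mv (γ S))) = l)) := by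
    intro S hS
    obtain ⟨s1, s2⟩ := hshort S hS
    have hT := ma S hS
    constructor
    · rintro ⟨a1, a2⟩
      have := ghost_move hact hgh hP hQ hT.1 s1 s2 a1 (by rw [a2]; exact hl)
      exact ⟨this.1, by rw [this.2, a2]⟩
    · rintro ⟨a1, a2⟩
      have himg : (S.image (mv (γ S))).image (mv (γ S)⁻¹) = S := by
        rw [Finset.image_image]
        have : (mv (γ S)⁻¹ ∘ mv (γ S)) = id := by
          funext s
          exact mv_inv' hact (γ S) s
        rw [this, Finset.image_id]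
      have := ghost_move hact hgh (S := S.image (mv (γ S))) (g := (γ S)⁻¹) hQ hP
        (by rw [himg]; exact hS.1) s2 (by rw [himg, inv_inv]; exact s1) a1 (by rw [a2]; exact hl)
      rw [himg] at this
      exact ⟨this.1, by rw [this.2, a2]⟩
  have hmat : (((P.powersetCard 3).filter fun S => Ghost P S ∧ ell S = l).filter
        fun S => MTr P Q L S).card
      = (((Q.powersetCard 3).filter fun S => Ghost Q S ∧ ell S = l).filter
        fun S => MTr Q P L S).card := by
    refine Finset.card_bij (fun S _ => S.image (mv (γ S))) ?_ ?_ ?_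
    · intro S hS
      rw [Finset.mem_filter, Finset.mem_filter] at hS
      obtain ⟨⟨-, h2⟩, h3⟩ := hS
      rw [Finset.mem_filter, Finset.mem_filter]
      have hT := ma S h3
      exact ⟨⟨Finset.mem_powersetCard.2 ⟨hT.1, hT.2.1⟩, (hmove S h3).1 h2⟩, hT⟩
    · intro S hS S' hS' heq
      rw [Finset.mem_filter] at hS hS'
      exact mc S S' hS.2 hS'.2 heq
    · intro T hT
      rw [Finset.mem_filter, Finset.mem_filter] at hT
      obtain ⟨⟨-, h2⟩, h3⟩ := hT
      obtain ⟨S, hS, rfl⟩ := mb' T h3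
      refine ⟨S, ?_, rfl⟩
      rw [Finset.mem_filter, Finset.mem_filter]
      exact ⟨⟨Finset.mem_powersetCard.2 ⟨hS.1, hS.2.1⟩, (hmove S hS).2 h2⟩, hS⟩
  have eP' : gc P l = (((P.powersetCard 3).filter fun S => Ghost P S ∧ ell S = l).filter
        fun S => MTr P Q L S).card + (NP.filter fun S => Acute S ∧ ell S = l).card := by
    rw [eP]
  have hfin : (NP.filter fun S => Acute S ∧ ell S = l).card
      = (NQ.filter fun S => Acute S ∧ ell S = l).card := by
    omega
  convert hfin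

end Pool.Agent.XQ
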