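import Pool.Agent.Helper16_XQ.StmtG
import Pool.Agent.Helper69_AEU.Tools
import Pool.Agent.Helper69_AEU.Lam
import Pool.Agent.Helper72_AEU.ACT

set_option autoImplicit false

namespace Pool.Agent.XQ

open MeasureTheory Complex Filter Topology Pool.Agent.H62T
open Pool.Agent.H16F (Sublin)
open Pool.Agent.AEU
open Pool.Agent.AEU.H69 (mem_touch mv_inv mv_inv' mb_inv' mv_inj mb_mv touch_image msy sub_copy)

namespace MBJ63

theorem image_inv (hact : ActStatement) (g : Iso2) (S : Finset HP) :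
    (S.image (mv g)).image (mv g⁻¹) = S := by
  rw [Finset.image_image]
  have : (mv g⁻¹ ∘ mv g) = id := by
    funext s
    exact mv_inv' hact g s
  rw [this, Finset.image_id]

theorem image_inv' (hact : ActStatement) (g : Iso2) (S : Finset HP) :
    (S.image (mv g⁻¹)).image (mv g) = S := by
  have := image_inv hact g⁻¹ S
  rwa [inv_inv] at this

/-- transport of matched triples -/
theorem mtr_move (hact : ActStatement) {X Y : Finset HP} {L : ℝ} {S : Finset HP} {h : ℂ → ℝ} {g : Iso2}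
    (hc : S.card = 3) (hsp : Special X h) (hm : Mat X Y g h) (hS : S ⊆ touch X h)
    (hl : lam h < L ∨ (lam h = L ∧ 4 ≤ (touch X h).card)) :
    S.image (mv g) ⊆ Y ∧ (S.image (mv g)).card = 3 ∧ Special Y (mb g h) ∧ Mat Y X g⁻¹ (mb g h) ∧
      S.image (mv g) ⊆ touch Y (mb g h) ∧
      (lam (mb g h) < L ∨ (lam (mb g h) = L ∧ 4 ≤ (touch Y (mb g h)).card)) := by
  obtain ⟨h1, h2, h3⟩ := msy hact X Y g h hm
  have hlam : lam (mb g h) = lam h := H69.lam_mb g hsp.sub
  have hsub : S.image (mv g) ⊆ touch Y (mb g h) := by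
    rw [h2]
    exact Finset.image_subset_image hS
  refine ⟨?_, ?_, h3 hsp, h1, hsub, ?_⟩
  · intro s hs
    exact (mem_touch.1 (hsub hs)).1
  · rw [Finset.card_image_of_injective _ (mv_inj hact g), hc]
  · rw [hlam, h2, Finset.card_image_of_injective _ (mv_inj hact g)]
    exact hl

theorem lam_copy {h : ℂ → ℝ} (hh : Sublin h) (σ : ℝ) (x : ℂ) :
    lam (fun w => σ * h w + ip w x) = σ * lam h := by
  have := H69.lamS.1 h h hh hh σ 0 x
  simpa using this

/-- one direction of the equivalence of events -/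
theorem ev_one (hact : ActStatement) {X : Finset HP} {X' Y' S : Finset HP} {g : Iso2} {b : ℝ} (hXX : X' ⊆ X)
    (hr : ∀ h, Sublin h → Fits X' h → S ⊆ touch X h → lam h < b → Mat X' Y' g h)
    {h : ℂ → ℝ} (hh : Sublin h) (hl : lam h < b) (hev : Ev X' S h) :
    Ev Y' (S.image (mv g)) (mb g h) := by
  obtain ⟨σ, x, h0, h1, hf, ht⟩ := hev
  have hk : Sublin (fun w => σ * h w + ip w x) := sub_copy hh h0.le x
  have hlam : lam (fun w => σ * h w + ip w x) < b := by
    rw [lam_copy hh]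
    have := H69.lam_nonneg hh
    nlinarith
  have hS : S ⊆ touch X (fun w => σ * h w + ip w x) := by
    intro s hs
    rw [← ht] at hs
    obtain ⟨a1, a2⟩ := mem_touch.1 hs
    exact mem_touch.2 ⟨hXX a1, a2⟩
  have hm := hr _ hk hf hS hlam
  have hti := touch_image hact hm
  have hmb := hact.2.2.2.2.2.2.2.2.2.2.2.2.2 g σ h x
  refine ⟨σ, g x - (σ : ℂ) * g 0, h0, h1, ?_, ?_⟩
  · rw [← hmb]
    exact hm.fits'
  · rw [← hmb, hti, ht]

end MBJ63

open MBJ63

/-- MBJ -/
theorem mbj (_hevr : EvrStatement) (hunx : UnxStatement) (hrlx : RlxStatement) :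
    MbjStatement := by
  classical
  have hact : ActStatement := H72.act
  intro P Q L TP TQ cP cQ KP KQ hctx
  have hex : ∀ S : Finset HP, ∃ g : Iso2, MTr P Q L S →
      (MTr Q P L (S.image (mv g)) ∧
      (∀ g', (∃ h, Special P h ∧ Mat P Q g' h ∧ S ⊆ touch P h ∧
        (lam h < L ∨ (lam h = L ∧ 4 ≤ (touch P h).card))) → g' = g) ∧
      ∃ δ > 0, (∀ h, Sublin h → Fits (rlx P TP cP S) h → S ⊆ touch P h → lam h < L + δ →
        Mat (rlx P TP cP S) (rlx Q TQ cQ (S.image (mv g))) g h) ∧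
      ∀ h, Sublin h → Fits (rlx Q TQ cQ (S.image (mv g))) h → S.image (mv g) ⊆ touch Q h →
        lam h < L + δ → Mat (rlx Q TQ cQ (S.image (mv g))) (rlx P TP cP S) g⁻¹ h) := by
    intro S
    by_cases hS : MTr P Q L S
    · obtain ⟨g, hg⟩ := hrlx P Q L TP TQ cP cQ KP KQ hctx S hS
      exact ⟨g, fun _ => hg⟩
    · exact ⟨1, fun h => absurd h hS⟩
  choose γ hγ using hex
  have hpg : Pg P := hctx.gx.gen.pg
  have hg1 : G1 P := hctx.gx.gen.g1
  have hQu : ∀ s ∈ Q, ‖s.1‖ = 1 := hctx.pq.unit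
  have hrP : ∀ S, rlx P TP cP S ⊆ P := fun S => Finset.sdiff_subset
  have hrQ : ∀ S, rlx Q TQ cQ S ⊆ Q := fun S => Finset.sdiff_subset
  -- matching data of a matched triple with the isometry γ S
  have hdata : ∀ S, MTr P Q L S → ∃ h, Special P h ∧ Mat P Q (γ S) h ∧ S ⊆ touch P h ∧
      (lam h < L ∨ (lam h = L ∧ 4 ≤ (touch P h).card)) := by
    intro S hS
    obtain ⟨-, -, h, g, h1, h2, h3, h4⟩ := id hS
    have := (hγ S hS).2.1 g ⟨h, h1, h2, h3, h4⟩
    subst this
    exact ⟨h, h1, h2, h3, h4⟩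
  refine ⟨γ, fun S hS => (hγ S hS).1, ?_, ?_, ?_, ?_⟩
  · -- surjective
    intro S' hS'
    obtain ⟨hsub, hc, h', g', h1, h2, h3, h4⟩ := hS'
    obtain ⟨b1, b2, b3, b4, b5, b6⟩ := mtr_move hact hc h1 h2 h3 h4
    have hS : MTr P Q L (S'.image (mv g')) := ⟨b1, b2, mb g' h', g'⁻¹, b3, b4, b5, b6⟩
    refine ⟨S'.image (mv g'), hS, ?_⟩
    have hg : g'⁻¹ = γ (S'.image (mv g')) := (hγ _ hS).2.1 g'⁻¹ ⟨_, b3, b4, b5, b6⟩
    rw [← hg]
    exact image_inv hact g' S'
  · -- injective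
    intro S S' hS hS' heq
    obtain ⟨h, h1, h2, h3, h4⟩ := hdata S hS
    obtain ⟨h', h1', h2', h3', h4'⟩ := hdata S' hS'
    have hT := (hγ S hS).1
    have key : (γ S)⁻¹ = (γ S')⁻¹ := by
      refine (hunx.2 Q P hQu hpg hg1 (γ S)⁻¹ (γ S')⁻¹).2 (S.image (mv (γ S))) hT.1 hT.2.1.ge ?_ ?_
      · intro s hs
        obtain ⟨t, ht, rfl⟩ := Finset.mem_image.1 hs
        rw [mv_inv' hact]
        exact hS.1 ht
      · intro s hs
        rw [heq] at hs
        obtain ⟨t, ht, rfl⟩ := Finset.mem_image.1 hs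
        rw [mv_inv' hact]
        exact hS'.1 ht
    have key2 : γ S = γ S' := inv_injective key
    rw [← key2] at heq
    exact Finset.image_injective (mv_inj hact (γ S)) heq
  · -- events
    intro S hS
    obtain ⟨-, -, δ, hδ, r3, r4⟩ := hγ S hS
    refine ⟨δ, hδ, fun h hh hl => ⟨fun hev => ev_one hact (hrP S) r3 hh hl hev, fun hev => ?_⟩⟩
    have hlm : lam (mb (γ S) h) < L + δ := by
      rw [H69.lam_mb (γ S) hh]
      exact hl
    have := ev_one hact (hrQ _) r4 (H69.sub_mb (γ S) hh) hlm hev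
    rwa [mb_inv' hact, image_inv hact] at this
  · intro S hS g h h1 h2 h3 h4
    exact (hγ S hS).2.1 g ⟨h, h1, h2, h3, h4⟩

end Pool.Agent.XQ
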