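import Pool.Agent.Helper36_XQ.Stmt5r

/-!
Squad XQ, part E4, module R2S: reflection of both ends.
-/

set_option autoImplicit false

namespace Pool.Agent.XQ.K4.H63

open MeasureTheory Complex Filter Topology Pool.Agent.H62T Pool.Agent.H16F
open scoped ENNReal NNReal

theorem mem_of_erase {s r : Fin 4} {a b : Finset (Fin 4)} (h : a.erase s = b.erase s)
    (hr : r ≠ s) : r ∈ a ↔ r ∈ b := by
  constructor
  · intro h1
    have h2 : r ∈ a.erase s := Finset.mem_erase.mpr ⟨hr, h1⟩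
    rw [h] at h2
    exact (Finset.mem_erase.mp h2).2
  · intro h1
    have h2 : r ∈ b.erase s := Finset.mem_erase.mpr ⟨hr, h1⟩
    rw [← h] at h2
    exact (Finset.mem_erase.mp h2).2

theorem Fr_vis {s : Fin 4} {O E : Finset (Fin 4)} (hO : s ∉ O) (hE : s ∉ E) (m : ℕ) :
    Fr s (fun A : Fin (m + 1) → Finset (Fin 4) => Vis O E A) := by
  have key : ∀ A A' : Fin (m + 1) → Finset (Fin 4), (∀ j, (A j).erase s = (A' j).erase s) →
      Vis O E A → Vis O E A' := by
    intro A A' h hA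
    refine ⟨fun r hr => ?_, fun j => ?_⟩
    · obtain ⟨j, hj⟩ := hA.1 r hr
      refine ⟨j, (mem_of_erase (h j) ?_).mp hj⟩
      rintro rfl
      exact hO hr
    · rw [Finset.disjoint_left]
      intro r hr hrE
      have hne : r ≠ s := by
        rintro rfl
        exact hE hrE
      exact (Finset.disjoint_left.mp (hA.2 j)) ((mem_of_erase (h j) hne).mpr hr) hrE
  exact fun A A' h => ⟨key A A' h, key A' A (fun j => (h j).symm)⟩

theorem Fr_qg {s r : Fin 4} (hr : r ≠ s)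
    {R : (m : ℕ) → (Fin (m + 1) → Finset (Fin 4)) → Prop} (hR : ∀ k, Fr s (R k)) (m : ℕ) :
    Fr s (Qg r R m) := by
  induction m with
  | zero =>
    intro A A' _
    exact Iff.rfl
  | succ m ih =>
    intro A A' h
    have h0 := mem_of_erase (h 0) hr
    have h1 := ih (fun j => A j.succ) (fun j => A' j.succ) (fun j => h j.succ)
    have h2 := hR m (fun j => A j.succ) (fun j => A' j.succ) (fun j => h j.succ)
    show ((r ∉ A 0 ∧ Qg r R m (fun j => A j.succ)) ∨ (r ∈ A 0 ∧ R m (fun j => A j.succ))) ↔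
      ((r ∉ A' 0 ∧ Qg r R m (fun j => A' j.succ)) ∨ (r ∈ A' 0 ∧ R m (fun j => A' j.succ)))
    rw [h0, h1, h2]

theorem Fr_rs {s : Fin 4} {m : ℕ} {R : (Fin (m + 1) → Finset (Fin 4)) → Prop} (hR : Fr s R) :
    Fr s (fun A => R (rs A)) := fun _ _ h => hR _ _ (fun j => h (Fin.rev j))

theorem rs_rs {m : ℕ} {β : Type} (f : Fin (m + 1) → β) : rs (rs f) = f := by
  funext j
  simp [rs]

theorem Cs_congr {u : Fin 4 → ℂ} {h : Fin 4 → ℝ} {m : ℕ}
    {R R' : (Fin (m + 1) → Finset (Fin 4)) → Prop} (hR : ∀ A, R A ↔ R' A)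
    (τ : Fin (m + 1) → ℝ) (x y : ℂ) : Cs u h R τ x y = Cs u h R' τ x y := by
  have : R = R' := funext fun A => propext (hR A)
  rw [this]

theorem notMem01 {s : Fin 4} (hs : s = 2 ∨ s = 3) {O : Finset (Fin 4)} (hO : O ⊆ {0, 1}) :
    s ∉ O := by
  intro h
  have h1 := hO h
  rcases hs with rfl | rfl
  · simp at h1
  · simp at h1

theorem r2s (h1 : RfkStatement) (h2 : RrvStatement) (h3 : RcoStatement) : R2sStatement := by
  intro u h O E m τ x y hu hOn hO hE hτ hx hy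
  obtain ⟨-, hrf⟩ := h1
  have hrs : ∀ j, 0 < rs τ j := fun j => hτ _
  have hco := (h3 O E m hOn hO hE).2.1
  have hu3 : ∀ s, ‖fu 3 u s‖ = 1 := by
    intro s
    by_cases hs : s = 3
    · subst hs
      simp only [fu, Function.update_self, norm_neg]
      exact hu 3
    · simp only [fu, Function.update_of_ne hs]
      exact hu s
  have hu23 : ∀ s, ‖fu 2 (fu 3 u) s‖ = 1 := by
    intro s
    by_cases hs : s = 2
    · subst hs
      simp only [fu, Function.update_self, norm_neg]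
      exact hu3 2
    · have : fu 2 (fu 3 u) s = fu 3 u s := by
        conv_lhs => rw [fu]
        rw [Function.update_of_ne hs]
      rw [this]
      exact hu3 s
  -- events
  have hR3 : ∀ k, Fr 3 (fun B : Fin (k + 1) → Finset (Fin 4) =>
      Qg 2 (fun _ B' => Vis O E B') k (rs B)) := fun k =>
    Fr_rs (Fr_qg (by decide)
      (fun k => Fr_vis (notMem01 (Or.inr rfl) hO) (notMem01 (Or.inr rfl) hE) k) k)
  have hR2 : ∀ k, Fr 2 (fun B : Fin (k + 1) → Finset (Fin 4) =>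
      Qg 3 (fun _ B' => Vis O E B') k (rs B)) := fun k =>
    Fr_rs (Fr_qg (by decide)
      (fun k => Fr_vis (notMem01 (Or.inl rfl) hO) (notMem01 (Or.inl rfl) hE) k) k)
  have s1 : Cs u h (Pt O E m) τ x y
      = Cs (fu 3 u) (fh 3 h) (Pt O E m) τ (rf u h 3 x) y :=
    hrf u h 3 (fun m B => Qg 2 (fun _ B' => Vis O E B') m (rs B)) m τ x y hu hR3 hτ hx
  have s2 : Cs (fu 3 u) (fh 3 h) (Pt O E m) τ (rf u h 3 x) y
      = Cs (fu 3 u) (fh 3 h) (fun A => Pt O E m (rs A)) (rs τ) y (rf u h 3 x) :=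
    h2 (fu 3 u) (fh 3 h) m (Pt O E m) τ (rf u h 3 x) y hu3 hτ
  have s3 : Cs (fu 3 u) (fh 3 h) (fun A => Pt O E m (rs A)) (rs τ) y (rf u h 3 x)
      = Cs (fu 3 u) (fh 3 h)
        (Qg 2 (fun k B' => Qg 3 (fun _ B'' => Vis O E B'') k (rs B')) m) (rs τ) y
        (rf u h 3 x) := by
    refine Cs_congr (fun A => ?_) _ _ _
    rw [hco (rs A), rs_rs]
  have hy' : ip (fu 3 u 2) y < fh 3 h 2 := by
    have e1 : fu 3 u 2 = u 2 := by simp [fu]
    have e2 : fh 3 h 2 = h 2 := by simp [fh]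
    rw [e1, e2]
    exact hy
  have s4 := hrf (fu 3 u) (fh 3 h) 2
    (fun k B' => Qg 3 (fun _ B'' => Vis O E B'') k (rs B')) m (rs τ) y (rf u h 3 x) hu3 hR2
    hrs hy'
  have s5 : Cs (fu 2 (fu 3 u)) (fh 2 (fh 3 h))
      (Qg 2 (fun k B' => Qg 3 (fun _ B'' => Vis O E B'') k (rs B')) m) (rs τ)
      (rf (fu 3 u) (fh 3 h) 2 y) (rf u h 3 x)
      = Cs (fu 2 (fu 3 u)) (fh 2 (fh 3 h)) (Pt O E m) τ (rf u h 3 x)
        (rf (fu 3 u) (fh 3 h) 2 y) := by
    rw [h2 (fu 2 (fu 3 u)) (fh 2 (fh 3 h)) m (Pt O E m) τ (rf u h 3 x)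
      (rf (fu 3 u) (fh 3 h) 2 y) hu23 hτ]
    refine Cs_congr (fun A => ?_) _ _ _
    rw [hco (rs A), rs_rs]
  have e3 : fu 2 (fu 3 u) = uc4 u := by
    funext s
    fin_cases s <;> simp [fu, uc4, Function.update]
  have e4 : fh 2 (fh 3 h) = hc4 h := by
    funext s
    fin_cases s <;> simp [fh, hc4, Function.update]
  have e5 : rf (fu 3 u) (fh 3 h) 2 y = rf u h 2 y := by
    unfold rf
    have e1 : fu 3 u 2 = u 2 := by simp [fu]
    have e2 : fh 3 h 2 = h 2 := by simp [fh]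
    rw [e1, e2]
  rw [s1, s2, s3, s4, s5, e3, e4, e5]

end Pool.Agent.XQ.K4.H63
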