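import Pool.Agent.Helper36_XQ.Stmt5r
import Pool.Agent.Helper36_XQ.Blv4

/-!
Squad XQ, part E4, module RFK: one-sided reflection of chain sums.
-/

set_option autoImplicit false

namespace Pool.Agent.XQ.K4.H63

open MeasureTheory Complex Filter Topology Pool.Agent.H62T Pool.Agent.H16F
open Pool.Agent.H60K
open scoped ENNReal NNReal

variable (u : Fin 4 → ℂ) (h : Fin 4 → ℝ)

theorem Cs_meas {m : ℕ} (R : (Fin (m + 1) → Finset (Fin 4)) → Prop) (τ : Fin (m + 1) → ℝ) :
    Measurable fun p : ℂ × ℂ => Cs u h R τ p.1 p.2 := by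
  classical
  unfold Cs
  refine Finset.measurable_fun_sum _ fun A _ => ?_
  by_cases hR : R A
  · simp only [if_pos hR]
    have hm : Measurable fun p : (ℂ × ℂ) × (Fin m → ℂ) => cw u h τ A p.1.1 p.2 p.1.2 :=
      cw_meas_comp u h τ A (measurable_fst.comp measurable_fst) measurable_snd
        (measurable_snd.comp measurable_fst)
    exact hm.lintegral_prod_right'
  · simp only [if_neg hR]
    exact measurable_const

theorem Cs_meas_l {m : ℕ} (R : (Fin (m + 1) → Finset (Fin 4)) → Prop) (τ : Fin (m + 1) → ℝ)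
    (y : ℂ) : Measurable fun z => Cs u h R τ z y := by
  have := Measurable.comp (g := fun p : ℂ × ℂ => Cs u h R τ p.1 p.2)
    (f := fun z : ℂ => (z, y)) (Cs_meas u h R τ) (measurable_id.prodMk measurable_const)
  exact this

theorem cons_step {m : ℕ} (τ : Fin (m + 2) → ℝ) (x y : ℂ) (a : Finset (Fin 4))
    (A : Fin (m + 1) → Finset (Fin 4)) :
    ∫⁻ z : Fin (m + 1) → ℂ, cw u h τ (Fin.cons a A) x z y
      = ∫⁻ z, ENNReal.ofReal (kA u h a (τ 0) x z)
        * ∫⁻ z' : Fin m → ℂ, cw u h (fun j => τ j.succ) A z z' y := by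
  rw [lint_cons (fun z => cw u h τ (Fin.cons a A) x z y)
    (cw_meas_comp u h τ _ measurable_const measurable_id measurable_const)]
  refine lintegral_congr fun z => ?_
  rw [← lintegral_const_mul' _ _ ENNReal.ofReal_ne_top]
  exact lintegral_congr fun z' => cw_succ u h τ a A x z z' y

open Classical in
theorem cons_sum {m : ℕ} (τ : Fin (m + 2) → ℝ) (x y : ℂ) (a : Finset (Fin 4))
    (R : (Fin (m + 1) → Finset (Fin 4)) → Prop) :
    ∑ A : Fin (m + 1) → Finset (Fin 4), (if R A then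
      ∫⁻ z : Fin (m + 1) → ℂ, cw u h τ (Fin.cons a A) x z y else 0)
    = ∫⁻ z, ENNReal.ofReal (kA u h a (τ 0) x z) * Cs u h R (fun j => τ j.succ) z y := by
  have hpm : Measurable fun z => ENNReal.ofReal (kA u h a (τ 0) x z) :=
    ENNReal.measurable_ofReal.comp (kA_meas_r u h a (τ 0) x)
  unfold Cs
  simp only [Finset.mul_sum]
  rw [lintegral_finsetSum]
  · refine Finset.sum_congr rfl fun A _ => ?_
    by_cases hR : R A
    · simp only [if_pos hR]
      exact cons_step u h τ x y a A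
    · simp only [if_neg hR, mul_zero, lintegral_zero]
  · intro A _
    refine hpm.mul ?_
    by_cases hR : R A
    · simp only [if_pos hR]
      have hm : Measurable fun p : ℂ × (Fin m → ℂ) =>
          cw u h (fun j => τ j.succ) A p.1 p.2 y :=
        cw_meas_comp u h _ A measurable_fst measurable_snd measurable_const
      exact hm.lintegral_prod_right'
    · simp only [if_neg hR]
      exact measurable_const

/-- recursion for general events -/
theorem Cs_step {m : ℕ} (R : (Fin (m + 2) → Finset (Fin 4)) → Prop) (τ : Fin (m + 2) → ℝ)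
    (x y : ℂ) : Cs u h R τ x y = ∑ a : Finset (Fin 4),
      ∫⁻ z, ENNReal.ofReal (kA u h a (τ 0) x z)
        * Cs u h (fun A => R (Fin.cons a A)) (fun j => τ j.succ) z y := by
  classical
  have e0 : Cs u h R τ x y = ∑ A : Fin (m + 1 + 1) → Finset (Fin 4),
      (if R A then ∫⁻ z : Fin (m + 1) → ℂ, cw u h τ A x z y else 0) := rfl
  rw [e0, sum_cons]
  refine Finset.sum_congr rfl fun a _ => ?_
  rw [← cons_sum u h τ x y a (fun A => R (Fin.cons a A))]

open Classical in
theorem Cs_zero (R : (Fin 1 → Finset (Fin 4)) → Prop) (τ : Fin 1 → ℝ) (x y : ℂ) :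
    Cs u h (m := 0) R τ x y = ∑ a : Finset (Fin 4),
      ENNReal.ofReal (kA u h a (τ 0) x y) * (if R (fun _ => a) then 1 else 0) := by
  have e2 : ∀ A : Fin 1 → Finset (Fin 4), ∫⁻ z : Fin 0 → ℂ, cw u h τ A x z y
      = ENNReal.ofReal (kA u h (A 0) (τ 0) x y) := by
    intro A
    rw [lintegral_unique]
    unfold cw
    have hv : volume (Set.univ : Set (Fin 0 → ℂ)) = 1 := by
      rw [Measure.volume_pi_eq_dirac default]
      simp
    rw [hv, mul_one]
    simp [Fin.snoc]
  have e0 : Cs u h (m := 0) R τ x y = ∑ A : Fin (0 + 1) → Finset (Fin 4),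
      (if R A then ∫⁻ z : Fin 0 → ℂ, cw u h τ A x z y else 0) := rfl
  rw [e0, sum_cons]
  refine Finset.sum_congr rfl fun a _ => ?_
  have e3 : ∀ A0 : Fin 0 → Finset (Fin 4),
      (Fin.cons a A0 : Fin (0 + 1) → Finset (Fin 4)) = fun _ => a := by
    intro A0
    funext j
    have : j = 0 := Fin.ext (by omega)
    subst this
    rfl
  simp only [e3]
  rw [Finset.univ_unique, Finset.sum_singleton, e2]
  by_cases hR : R (fun _ => a)
  · simp [hR]
  · simp [hR]

/-! ### The label `s` -/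

variable {u h}

theorem fu_same (s : Fin 4) : fu s u s = -u s := by simp [fu]

theorem fh_same (s : Fin 4) : fh s h s = -h s := by simp [fh]

theorem fu_ne {s r : Fin 4} (hs : r ≠ s) : fu s u r = u r := by simp [fu, hs]

theorem fh_ne {s r : Fin 4} (hs : r ≠ s) : fh s h r = h r := by simp [fh, hs]

theorem norm_fu (hu : ∀ s, ‖u s‖ = 1) (s r : Fin 4) : ‖fu s u r‖ = 1 := by
  by_cases hs : r = s
  · rw [hs, fu_same, norm_neg]
    exact hu s
  · rw [fu_ne hs]
    exact hu r

theorem pB_fu {s : Fin 4} {B : Finset (Fin 4)} (hB : s ∉ B) (t : ℝ) (x y : ℂ) :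
    pB (fu s u) (fh s h) B t x y = pB u h B t x y := by
  unfold pB
  congr 1
  ext z
  unfold Dm
  refine forall₂_congr fun r hr => ?_
  have hs0 : r ≠ s := by
    rintro rfl
    exact hB hr
  rw [fu_ne hs0, fh_ne hs0]

/-- the sum of the kernels over the label `s` -/
theorem kA_pair {s : Fin 4} {b : Finset (Fin 4)} (hb : s ∉ b) (t : ℝ) (x y : ℂ) :
    kA u h b t x y + kA u h (insert s b) t x y
      = ∑ C ∈ b.powerset, (-1 : ℝ) ^ C.card * pB u h ((insert s b)ᶜ ∪ C) t x y := by
  unfold kA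
  rw [Finset.sum_powerset_insert hb]
  have e : ∑ C ∈ b.powerset, (-1 : ℝ) ^ (insert s C).card
      * pB u h ((insert s b)ᶜ ∪ insert s C) t x y
      = -∑ C ∈ b.powerset, (-1 : ℝ) ^ C.card * pB u h (bᶜ ∪ C) t x y := by
    rw [← Finset.sum_neg_distrib]
    refine Finset.sum_congr rfl fun C hC => ?_
    have hsC : s ∉ C := fun h => hb (Finset.mem_powerset.mp hC h)
    have e1 : (insert s b)ᶜ ∪ insert s C = bᶜ ∪ C := by
      ext r
      simp only [Finset.mem_union, Finset.mem_compl, Finset.mem_insert]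
      by_cases hr : r = s
      · subst hr
        simp [hb]
      · simp [hr]
    rw [e1, Finset.card_insert_of_notMem hsC, pow_succ]
    ring
  rw [e]
  ring

theorem kA_pair_fu {s : Fin 4} {b : Finset (Fin 4)} (hb : s ∉ b) (t : ℝ) (x y : ℂ) :
    kA (fu s u) (fh s h) b t x y + kA (fu s u) (fh s h) (insert s b) t x y
      = kA u h b t x y + kA u h (insert s b) t x y := by
  rw [kA_pair hb, kA_pair hb]
  refine Finset.sum_congr rfl fun C hC => ?_
  congr 1
  apply pB_fu
  rw [Finset.mem_union, Finset.mem_compl, Finset.mem_insert, not_or]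
  exact ⟨by simp, fun h => hb (Finset.mem_powerset.mp hC h)⟩

theorem sum_split (s : Fin 4) (f : Finset (Fin 4) → ℝ≥0∞) :
    ∑ a, f a = ∑ b ∈ (({s} : Finset (Fin 4))ᶜ).powerset, (f b + f (insert s b)) := by
  have h1 : (Finset.univ : Finset (Finset (Fin 4))) =
      (insert s (({s} : Finset (Fin 4))ᶜ)).powerset := by
    rw [Finset.insert_compl_self]
    rfl
  rw [h1, Finset.sum_powerset_insert (by simp), ← Finset.sum_add_distrib]

theorem mem_split {s : Fin 4} {b : Finset (Fin 4)}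
    (hb : b ∈ (({s} : Finset (Fin 4))ᶜ).powerset) : s ∉ b := by
  intro h
  have := Finset.mem_powerset.mp hb h
  simp at this

/-- sums against functions which do not depend on the label `s` -/
theorem sum_pair (s : Fin 4) {t : ℝ} (ht : 0 < t) (x y : ℂ) (g : Finset (Fin 4) → ℝ≥0∞)
    (hg : ∀ b, s ∉ b → g (insert s b) = g b) :
    ∑ a, ENNReal.ofReal (kA u h a t x y) * g a
      = ∑ b ∈ (({s} : Finset (Fin 4))ᶜ).powerset,
        ENNReal.ofReal (kA u h b t x y + kA u h (insert s b) t x y) * g b := by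
  rw [sum_split s]
  refine Finset.sum_congr rfl fun b hb => ?_
  rw [hg b (mem_split hb), ENNReal.ofReal_add (kA_nonneg u h ht x y b)
    (kA_nonneg u h ht x y _), add_mul]

theorem sum_pair_fu (s : Fin 4) {t : ℝ} (ht : 0 < t) (x y : ℂ) (g : Finset (Fin 4) → ℝ≥0∞)
    (hg : ∀ b, s ∉ b → g (insert s b) = g b) :
    ∑ a, ENNReal.ofReal (kA (fu s u) (fh s h) a t x y) * g a
      = ∑ a, ENNReal.ofReal (kA u h a t x y) * g a := by
  rw [sum_pair s ht x y g hg, sum_pair s ht x y g hg]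
  refine Finset.sum_congr rfl fun b hb => ?_
  rw [kA_pair_fu (mem_split hb)]

theorem Fr_cons {s : Fin 4} {m : ℕ} {R : (Fin (m + 2) → Finset (Fin 4)) → Prop} (hR : Fr s R)
    (a : Finset (Fin 4)) : Fr s (fun A : Fin (m + 1) → Finset (Fin 4) => R (Fin.cons a A)) := by
  intro A A' hA
  refine hR _ _ (fun j => ?_)
  refine Fin.cases ?_ (fun i => ?_) j
  · rfl
  · simp only [Fin.cons_succ]
    exact hA i

/-- part (1) -/
theorem Cs_fu (s : Fin 4) (m : ℕ) : ∀ (R : (Fin (m + 1) → Finset (Fin 4)) → Prop)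
    (τ : Fin (m + 1) → ℝ) (x y : ℂ), Fr s R → (∀ j, 0 < τ j) →
    Cs (fu s u) (fh s h) R τ x y = Cs u h R τ x y := by
  classical
  induction m with
  | zero =>
    intro R τ x y hR hτ
    rw [Cs_zero, Cs_zero]
    apply sum_pair_fu s (hτ 0) x y (fun a => if R (fun _ => a) then 1 else 0)
    intro b hb
    have h1 : R (fun _ => insert s b) ↔ R (fun _ => b) := hR _ _ (fun j => by
      rw [Finset.erase_insert hb, Finset.erase_eq_of_notMem hb])
    simp only [h1]
  | succ m ih =>
    intro R τ x y hR hτ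
    rw [Cs_step, Cs_step]
    have hm1 : ∀ a, Measurable fun z => ENNReal.ofReal (kA (fu s u) (fh s h) a (τ 0) x z)
        * Cs u h (fun A => R (Fin.cons a A)) (fun j => τ j.succ) z y := fun a =>
      (ENNReal.measurable_ofReal.comp (kA_meas_r _ _ a (τ 0) x)).mul (Cs_meas_l u h _ _ y)
    have hm2 : ∀ a, Measurable fun z => ENNReal.ofReal (kA u h a (τ 0) x z)
        * Cs u h (fun A => R (Fin.cons a A)) (fun j => τ j.succ) z y := fun a =>
      (ENNReal.measurable_ofReal.comp (kA_meas_r _ _ a (τ 0) x)).mul (Cs_meas_l u h _ _ y)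
    have e1 : ∀ a, ∫⁻ z, ENNReal.ofReal (kA (fu s u) (fh s h) a (τ 0) x z)
        * Cs (fu s u) (fh s h) (fun A => R (Fin.cons a A)) (fun j => τ j.succ) z y
        = ∫⁻ z, ENNReal.ofReal (kA (fu s u) (fh s h) a (τ 0) x z)
        * Cs u h (fun A => R (Fin.cons a A)) (fun j => τ j.succ) z y := by
      intro a
      refine lintegral_congr fun z => ?_
      rw [ih _ _ z y (Fr_cons hR a) (fun j => hτ _)]
    simp only [e1]
    rw [← lintegral_finsetSum _ (fun a _ => hm1 a), ← lintegral_finsetSum _ (fun a _ => hm2 a)]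
    refine lintegral_congr fun z => ?_
    apply sum_pair_fu s (hτ 0) x z
      (fun a => Cs u h (fun A => R (Fin.cons a A)) (fun j => τ j.succ) z y)
    intro b hb
    have h1 : (fun A : Fin (m + 1) → Finset (Fin 4) => R (Fin.cons (insert s b) A)) =
        fun A => R (Fin.cons b A) := by
      funext A
      refine propext (hR _ _ (fun j => ?_))
      refine Fin.cases ?_ (fun i => ?_) j
      · simp only [Fin.cons_zero]
        rw [Finset.erase_insert hb, Finset.erase_eq_of_notMem hb]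
      · rfl
    simp only [h1]

/-! ### Reflection -/

/-- kernel of the paths which do not visit `s` -/
theorem sum_no (s : Fin 4) {t : ℝ} (ht : 0 < t) (x y : ℂ) :
    ∑ a : Finset (Fin 4), (if s ∉ a then ENNReal.ofReal (kA u h a t x y) else 0)
      = ENNReal.ofReal (pB u h {s} t x y) := by
  rw [pB_eq u h {s} t x y, ENNReal.ofReal_sum_of_nonneg fun A _ => kA_nonneg u h ht x y A,
    ← Finset.sum_filter]
  refine Finset.sum_congr ?_ fun _ _ => rfl
  ext a
  rw [Finset.mem_filter, Finset.mem_powerset, Finset.subset_compl_comm, Finset.singleton_subset_iff,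
    Finset.mem_compl]
  simp

/-- kernel of all paths -/
theorem sum_all {t : ℝ} (ht : 0 < t) (x y : ℂ) :
    ∑ a : Finset (Fin 4), ENNReal.ofReal (kA u h a t x y) = ENNReal.ofReal (G t (x - y)) := by
  rw [← ENNReal.ofReal_sum_of_nonneg fun A _ => kA_nonneg u h ht x y A]
  congr 1
  have h1 := pB_eq u h ∅ t x y
  have h2 : pB u h ∅ t x y = G t (x - y) := by
    unfold pB
    have : Dm u h ∅ = Set.univ := by
      ext x
      simp [Dm]
    rw [this]
    exact H60K.H44.uni t x y ht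
  rw [h2] at h1
  rw [h1]
  refine Finset.sum_congr ?_ fun _ _ => rfl
  ext a
  simp

/-- kernel of the paths which visit `s` -/
theorem sum_yes (s : Fin 4) {t : ℝ} (ht : 0 < t) (x y : ℂ) :
    ∑ a : Finset (Fin 4), (if s ∈ a then ENNReal.ofReal (kA u h a t x y) else 0)
      = ENNReal.ofReal (G t (x - y) - pB u h {s} t x y) := by
  have h1 := sum_all (u := u) (h := h) ht x y
  have h2 := sum_no (u := u) (h := h) s ht x y
  have h3 : ∑ a : Finset (Fin 4), ENNReal.ofReal (kA u h a t x y)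
      = ∑ a : Finset (Fin 4), (if s ∈ a then ENNReal.ofReal (kA u h a t x y) else 0)
        + ∑ a : Finset (Fin 4), (if s ∉ a then ENNReal.ofReal (kA u h a t x y) else 0) := by
    rw [← Finset.sum_add_distrib]
    refine Finset.sum_congr rfl fun a _ => ?_
    by_cases ha : s ∈ a
    · simp [ha]
    · simp [ha]
  rw [h1, h2] at h3
  have hnn : 0 ≤ pB u h {s} t x y := by
    rw [pB_eq u h {s} t x y]
    exact Finset.sum_nonneg fun A _ => kA_nonneg u h ht x y A
  rw [ENNReal.ofReal_sub _ hnn, h3]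
  exact (ENNReal.add_sub_cancel_right ENNReal.ofReal_ne_top).symm

theorem sum_lint {t : ℝ} (x : ℂ) (P : Finset (Fin 4) → Prop) [DecidablePred P]
    {c : ℂ → ℝ≥0∞} (hc : Measurable c) :
    ∑ a : Finset (Fin 4), (if P a then ∫⁻ z, ENNReal.ofReal (kA u h a t x z) * c z else 0)
      = ∫⁻ z, (∑ a : Finset (Fin 4), if P a then ENNReal.ofReal (kA u h a t x z) else 0)
          * c z := by
  simp only [Finset.sum_mul]
  rw [lintegral_finsetSum]
  · refine Finset.sum_congr rfl fun a _ => ?_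
    by_cases ha : P a
    · simp only [if_pos ha]
    · simp only [if_neg ha, zero_mul, lintegral_zero]
  · intro a _
    by_cases ha : P a
    · simp only [if_pos ha]
      exact (ENNReal.measurable_ofReal.comp (kA_meas_r u h a t x)).mul hc
    · simp only [if_neg ha, zero_mul]
      exact measurable_const

theorem Qg_cons (s : Fin 4) (R : (m : ℕ) → (Fin (m + 1) → Finset (Fin 4)) → Prop) {m : ℕ}
    (a : Finset (Fin 4)) (A : Fin (m + 1) → Finset (Fin 4)) :
    Qg s R (m + 1) (Fin.cons a A) ↔ (s ∉ a ∧ Qg s R m A) ∨ (s ∈ a ∧ R m A) := Iff.rfl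

theorem Cs_cons (s : Fin 4) (R : (m : ℕ) → (Fin (m + 1) → Finset (Fin 4)) → Prop) {m : ℕ}
    (τ : Fin (m + 2) → ℝ) (x y : ℂ) :
    Cs u h (Qg s R (m + 1)) τ x y
      = ∑ a : Finset (Fin 4), ((if s ∉ a then
          ∫⁻ z, ENNReal.ofReal (kA u h a (τ 0) x z)
            * Cs u h (Qg s R m) (fun j => τ j.succ) z y else 0)
        + (if s ∈ a then ∫⁻ z, ENNReal.ofReal (kA u h a (τ 0) x z)
            * Cs u h (R m) (fun j => τ j.succ) z y else 0)) := by
  classical
  have e0 : Cs u h (Qg s R (m + 1)) τ x y = ∑ A : Fin (m + 1 + 1) → Finset (Fin 4),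
      (if Qg s R (m + 1) A then ∫⁻ z : Fin (m + 1) → ℂ, cw u h τ A x z y else 0) := rfl
  rw [e0, sum_cons]
  refine Finset.sum_congr rfl fun a _ => ?_
  rw [← cons_sum u h τ x y a (Qg s R m), ← cons_sum u h τ x y a (R m)]
  simp only [Qg_cons]
  by_cases ha : s ∈ a
  · simp only [ha, not_true_eq_false, false_and, true_and, false_or, if_true, if_false, zero_add]
  · simp only [ha, not_false_eq_true, false_and, true_and, or_false, if_true, if_false, add_zero]

/-- recursion -/
theorem Cs_succ (s : Fin 4) (R : (m : ℕ) → (Fin (m + 1) → Finset (Fin 4)) → Prop) {m : ℕ}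
    (τ : Fin (m + 2) → ℝ) (hτ : ∀ j, 0 < τ j) (x y : ℂ) :
    Cs u h (Qg s R (m + 1)) τ x y
      = (∫⁻ z, ENNReal.ofReal (pB u h {s} (τ 0) x z)
          * Cs u h (Qg s R m) (fun j => τ j.succ) z y)
        + ∫⁻ z, ENNReal.ofReal (G (τ 0) (x - z) - pB u h {s} (τ 0) x z)
          * Cs u h (R m) (fun j => τ j.succ) z y := by
  have h1 := sum_lint (u := u) (h := h) (t := τ 0) x (fun a => s ∉ a)
    (Cs_meas_l u h (Qg s R m) (fun j => τ j.succ) y)
  have h2 := sum_lint (u := u) (h := h) (t := τ 0) x (fun a => s ∈ a)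
    (Cs_meas_l u h (R m) (fun j => τ j.succ) y)
  rw [Cs_cons, Finset.sum_add_distrib]
  refine Eq.trans (congrArg₂ (· + ·) h1 h2) ?_
  refine congrArg₂ (· + ·) ?_ ?_
  · exact lintegral_congr fun z => by rw [sum_no s (hτ 0) x z]
  · exact lintegral_congr fun z => by rw [sum_yes s (hτ 0) x z]

theorem ip_neg (a z : ℂ) : ip (-a) z = -ip a z := by
  unfold ip
  simp
  ring

theorem ip_rf {s : Fin 4} (hu : ‖u s‖ = 1) (z : ℂ) :
    ip (u s) (rf u h s z) = 2 * h s - ip (u s) z := H15.ip_rl hu z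

theorem rf_rf {s : Fin 4} (hu : ‖u s‖ = 1) (z : ℂ) : rf u h s (rf u h s z) = z := H15.rl_rl hu z

theorem rf_fu (s : Fin 4) (z : ℂ) : rf (fu s u) (fh s h) s z = rf u h s z := by
  unfold rf
  rw [fu_same, fh_same, ip_neg]
  push_cast
  ring

theorem opp_iff {s : Fin 4} (hu : ‖u s‖ = 1) (z : ℂ) :
    ip (fu s u s) (rf u h s z) < fh s h s ↔ ip (u s) z < h s := by
  rw [fu_same, fh_same, ip_neg, ip_rf hu]
  constructor <;> intro h <;> linarith

theorem dm_single (u : Fin 4 → ℂ) (h : Fin 4 → ℝ) (s : Fin 4) :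
    Dm u h {s} = {z | ip (u s) z < h s} := by
  ext z
  simp [Dm]

theorem pB0_out {u : Fin 4 → ℂ} {h : Fin 4 → ℝ} {s : Fin 4} {t : ℝ} (ht : 0 < t) {x y : ℂ}
    (hxy : ¬ (ip (u s) x < h s ∧ ip (u s) y < h s)) : pB u h {s} t x y = 0 := by
  unfold pB
  refine ((H8.pdk _ (dm_open u h {s})).2 t ht).2.1 x y ?_
  rw [dm_single]
  by_contra hc
  rw [not_or, not_not, not_not] at hc
  exact hxy hc

theorem pB0_in {u : Fin 4 → ℂ} {h : Fin 4 → ℝ} {s : Fin 4} (hu : ‖u s‖ = 1) {t : ℝ} (ht : 0 < t)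
    {x y : ℂ} (hx : ip (u s) x < h s) (hy : ip (u s) y < h s) :
    pB u h {s} t x y = G t (x - y) - G t (x - rf u h s y) := by
  unfold pB
  rw [dm_single]
  exact H15.hpk (u s) (h s) t x y hu ht hx hy

theorem G_congr {t : ℝ} {x y : ℂ} (h : ‖x‖ = ‖y‖) : G t x = G t y := by
  unfold G
  rw [h]

theorem G_rf_rf {s : Fin 4} (hu : ‖u s‖ = 1) (t : ℝ) (x y : ℂ) :
    G t (rf u h s x - rf u h s y) = G t (x - y) := G_congr (H15.norm_rl_rl hu x y)

theorem G_rf {s : Fin 4} (hu : ‖u s‖ = 1) (t : ℝ) (x y : ℂ) :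
    G t (rf u h s x - y) = G t (x - rf u h s y) := by
  rw [← G_rf_rf (u := u) (h := h) hu t (rf u h s x) y, rf_rf hu]

theorem norm_fus {s : Fin 4} (hu : ‖u s‖ = 1) : ‖fu s u s‖ = 1 := by
  rw [fu_same, norm_neg]
  exact hu

theorem pB0_rf {s : Fin 4} (hu : ‖u s‖ = 1) {t : ℝ} (ht : 0 < t) (x y : ℂ) :
    pB (fu s u) (fh s h) {s} t (rf u h s x) (rf u h s y) = pB u h {s} t x y := by
  have huc : ‖fu s u s‖ = 1 := norm_fus hu
  by_cases hxy : ip (u s) x < h s ∧ ip (u s) y < h s
  · rw [pB0_in huc ht ((opp_iff hu x).mpr hxy.1) ((opp_iff hu y).mpr hxy.2),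
      pB0_in hu ht hxy.1 hxy.2, rf_fu, rf_rf hu, G_rf_rf hu, G_rf hu]
  · rw [pB0_out ht hxy, pB0_out ht]
    rw [opp_iff hu, opp_iff hu]
    exact hxy

theorem vis0_rf {s : Fin 4} (hu : ‖u s‖ = 1) {t : ℝ} (ht : 0 < t) {x : ℂ}
    (hx : ip (u s) x < h s) (y : ℂ) :
    G t (rf u h s x - y) - pB (fu s u) (fh s h) {s} t (rf u h s x) y
      = G t (x - y) - pB u h {s} t x y := by
  have huc : ‖fu s u s‖ = 1 := norm_fus hu
  have hx' := (opp_iff (h := h) hu x).mpr hx
  by_cases hy : ip (u s) y < h s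
  · have hy' : ¬ ip (fu s u s) y < fh s h s := by
      rw [fu_same, fh_same, ip_neg]
      linarith
    rw [pB0_in hu ht hx hy, pB0_out ht (fun hc => hy' hc.2), G_rf hu]
    ring
  · rw [pB0_out ht (fun hc => hy hc.2)]
    by_cases hy' : ip (fu s u s) y < fh s h s
    · rw [pB0_in huc ht hx' hy', rf_fu, G_rf hu, G_rf_rf hu]
      ring
    · rw [pB0_out ht (fun hc => hy' hc.2)]
      have e : rf u h s y = y := by
        rw [fu_same, fh_same, ip_neg] at hy'
        exact H15.rl_fix (by linarith : ip (u s) y = h s)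
      rw [G_rf hu, e]

/-- reflection of chains -/
theorem Cs_rf (s : Fin 4) (hu : ∀ s, ‖u s‖ = 1)
    (R : (m : ℕ) → (Fin (m + 1) → Finset (Fin 4)) → Prop) (hR : ∀ k, Fr s (R k)) (m : ℕ) :
    ∀ (τ : Fin (m + 1) → ℝ), (∀ j, 0 < τ j) → ∀ (x y : ℂ), ip (u s) x < h s →
      Cs u h (Qg s R m) τ x y = Cs (fu s u) (fh s h) (Qg s R m) τ (rf u h s x) y := by
  induction m with
  | zero =>
    intro τ _ x y _
    unfold Cs Qg
    simp
  | succ m ih =>
    intro τ hτ x y hx
    rw [Cs_succ s R τ hτ x y, Cs_succ (u := fu s u) (h := fh s h) s R τ hτ (rf u h s x) y]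
    congr 1
    · have hmp : MeasurePreserving (rf u h s) volume volume := H15.rl_mp (hu s)
      have hme : MeasurableEmbedding (rf u h s) := H15.rl_emb (hu s)
      have e := hmp.lintegral_comp_emb hme (fun z => ENNReal.ofReal
        (pB (fu s u) (fh s h) {s} (τ 0) (rf u h s x) z)
        * Cs (fu s u) (fh s h) (Qg s R m) (fun j => τ j.succ) z y)
      rw [← e]
      refine lintegral_congr fun z => ?_
      rw [pB0_rf (hu s) (hτ 0)]
      by_cases hz : ip (u s) z < h s
      · rw [ih (fun j => τ j.succ) (fun j => hτ _) z y hz]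
      · rw [pB0_out (hτ 0) (fun hc => hz hc.2), ENNReal.ofReal_zero, zero_mul, zero_mul]
    · refine lintegral_congr fun z => ?_
      rw [vis0_rf (hu s) (hτ 0) hx, Cs_fu s m (R m) _ z y (hR m) (fun j => hτ _)]

theorem rfk : RfkStatement :=
  ⟨fun _ _ s m R τ x y _ hR hτ => Cs_fu s m R τ x y hR hτ,
    fun _ _ s R m τ x y hu hR hτ hx => Cs_rf s hu R hR m τ hτ x y hx⟩

end Pool.Agent.XQ.K4.H63
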